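import Pool.Agent.V11231.RM.Main

/-!
# Recognising reset Mealy automata is `PSPACE`-complete

A Mealy automaton is given by its table `A : List (List (ℕ × ℕ))`: the states are the numbers of the
rows, the letters are `0, …, m - 1`, where `m` is the common length of the rows, and the entry in row
`q` and column `a` is the pair `(q · a, q ∘ a)`. `RESET A` says that `A` is such a table and that
the automaton is synchronizing and every state maps synchronizing words to synchronizing words.
-/

namespace Pool.Agent.Results.MP_5adc07_lc.ResetPSPACEComplete

open Pool.Agent.NPC Pool.Agent.H623R2.PS Pool.Agent.V11231.RM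

/-- `RESET` is `PSPACE`-complete under polynomial-time many-one reductions, and it lies in `NP` if
and only if all of `PSPACE` does. -/
theorem result :
    PSPACEComplete (lang RESET) ∧
      (InNP (lang RESET) ↔ ∀ L : Set (List Bool), InPSPACE L → InNP L) :=
  ⟨reset_complete, reset_np⟩

end Pool.Agent.Results.MP_5adc07_lc.ResetPSPACEComplete
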